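import Pool.Agent.H.MP_e22ce5_an.B

namespace Pool.Agent.Results.MP_e22ce5_an.No

open Pool.Agent.H.MP_e22ce5_an

theorem result : ∃ (X : Type) (_ : AddCommGroup X) (_ : Module ℝ X) (_ : UniformSpace X),
    IsFrechet X ∧ Spade X ∧ ¬ Nuclear X :=
  ⟨XX, inferInstance, inferInstance, inferInstance, XX_frechet, XX_spade, XX_not⟩

end Pool.Agent.Results.MP_e22ce5_an.No
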